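import Pool.Agent.W355.UN.Stm

/-!
# Project UN: the Dirichlet series with `b log = (Λ c) * b` has no zeros for `Re s > 1` (COEF)
-/

set_option autoImplicit false

open Complex Filter Topology
open scoped ComplexConjugate

namespace Pool.Agent.W672.UN

open Pool.Agent.W355.UN

/-- the arithmetic function `ζ^m`, real valued -/
noncomputable def A (m : ℕ) : ArithmeticFunction ℝ :=
  ((ArithmeticFunction.zeta : ArithmeticFunction ℕ) : ArithmeticFunction ℝ) ^ m

theorem leibniz (f g : ArithmeticFunction ℝ) :
    (f * g).pmul ArithmeticFunction.log =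
      (f.pmul ArithmeticFunction.log) * g + f * (g.pmul ArithmeticFunction.log) := by
  ext n
  simp only [ArithmeticFunction.pmul_apply, ArithmeticFunction.add_apply,
    ArithmeticFunction.mul_apply, ArithmeticFunction.log_apply]
  rw [Finset.sum_mul, ← Finset.sum_add_distrib]
  apply Finset.sum_congr rfl
  intro p hp
  obtain ⟨h1, h2⟩ := Nat.mem_divisorsAntidiagonal.1 hp
  have hp1 : p.1 ≠ 0 := fun h => h2 (by rw [← h1, h, zero_mul])
  have hp2 : p.2 ≠ 0 := fun h => h2 (by rw [← h1, h, mul_zero])
  rw [← h1, Nat.cast_mul, Real.log_mul (by exact_mod_cast hp1) (by exact_mod_cast hp2)]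
  ring

theorem A_log (m : ℕ) : (A m).pmul ArithmeticFunction.log =
    (m : ℝ) • (ArithmeticFunction.vonMangoldt * A m) := by
  induction m with
  | zero =>
    ext n
    simp only [A, pow_zero, ArithmeticFunction.pmul_apply, ArithmeticFunction.log_apply,
      Nat.cast_zero, zero_smul, ArithmeticFunction.zero_apply]
    by_cases h : n = 1
    · subst h; simp
    · rw [ArithmeticFunction.one_apply_ne h, zero_mul]
  | succ m ih =>
    have e : A (m + 1) = A m * ((ArithmeticFunction.zeta : ArithmeticFunction ℕ) :
        ArithmeticFunction ℝ) := by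
      unfold A; rw [pow_succ]
    have e2 : (((ArithmeticFunction.zeta : ArithmeticFunction ℕ) :
        ArithmeticFunction ℝ)).pmul ArithmeticFunction.log = ArithmeticFunction.vonMangoldt *
        ((ArithmeticFunction.zeta : ArithmeticFunction ℕ) : ArithmeticFunction ℝ) := by
      rw [ArithmeticFunction.vonMangoldt_mul_zeta, ArithmeticFunction.zeta_pmul]
    rw [e, leibniz, ih, e2, smul_mul_assoc, mul_assoc, mul_left_comm (A m)]
    push_cast
    rw [add_smul, one_smul]

theorem A_one (m : ℕ) : A m 1 = 1 := by
  induction m with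
  | zero => simp [A]
  | succ m ih =>
    have e : A (m + 1) = A m * ((ArithmeticFunction.zeta : ArithmeticFunction ℕ) :
        ArithmeticFunction ℝ) := by
      unfold A; rw [pow_succ]
    rw [e, ArithmeticFunction.mul_apply_one, ih]
    simp

theorem A_nonneg (m : ℕ) : ∀ n, 0 ≤ A m n := by
  induction m with
  | zero =>
    intro n
    simp only [A, pow_zero]
    rw [ArithmeticFunction.one_apply]
    split_ifs <;> norm_num
  | succ m ih =>
    intro n
    have e : A (m + 1) = A m * ((ArithmeticFunction.zeta : ArithmeticFunction ℕ) :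
        ArithmeticFunction ℝ) := by
      unfold A; rw [pow_succ]
    rw [e, ArithmeticFunction.mul_apply]
    refine Finset.sum_nonneg fun p _ => mul_nonneg (ih _) ?_
    rw [ArithmeticFunction.natCoe_apply]
    exact Nat.cast_nonneg _

theorem A_rec (m n : ℕ) : A m n * Real.log n =
    ∑ d ∈ n.divisors, (m : ℝ) * ArithmeticFunction.vonMangoldt d * A m (n / d) := by
  have h := congrArg (fun f : ArithmeticFunction ℝ => f n) (A_log m)
  simp only [ArithmeticFunction.pmul_apply, ArithmeticFunction.log_apply,
    ArithmeticFunction.smul_map, smul_eq_mul, ArithmeticFunction.mul_apply] at h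
  rw [h, Nat.sum_divisorsAntidiagonal (fun i j => ArithmeticFunction.vonMangoldt i * A m j),
    Finset.mul_sum]
  exact Finset.sum_congr rfl fun d _ => by ring

theorem bound (m : ℕ) (b c : ℕ → ℂ) (hb1 : b 1 = 1) (hc : ∀ n, ‖c n‖ ≤ m) (hconv : Conv b c) :
    ∀ n : ℕ, n ≠ 0 → ‖b n‖ ≤ A m n := by
  intro n
  induction n using Nat.strong_induction_on with
  | _ n ih =>
    intro hn
    rcases Nat.lt_or_ge 1 n with h1 | h1
    · have hlog : 0 < Real.log n := Real.log_pos (by exact_mod_cast h1)
      have h2 := hconv n hn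
      have h3 : ‖b n‖ * Real.log n ≤ A m n * Real.log n := by
        have e : ‖b n‖ * Real.log n = ‖b n * ((Real.log n : ℝ) : ℂ)‖ := by
          rw [norm_mul, Complex.norm_real, Real.norm_eq_abs, abs_of_pos hlog]
        rw [e, h2, A_rec]
        refine (norm_sum_le _ _).trans (Finset.sum_le_sum fun d hd => ?_)
        rw [norm_mul, norm_mul, Complex.norm_real, Real.norm_eq_abs,
          abs_of_nonneg ArithmeticFunction.vonMangoldt_nonneg]
        have hd0 := Nat.pos_of_mem_divisors hd
        by_cases hd1 : d = 1
        · subst hd1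
          simp
        · have hdn : n / d < n := Nat.div_lt_self (by omega) (by omega)
          have hnd : n / d ≠ 0 := by
            have := Nat.div_pos (Nat.divisor_le hd) hd0
            omega
          have h4 := ih (n / d) hdn hnd
          have h5 := hc d
          have h6 := ArithmeticFunction.vonMangoldt_nonneg (n := d)
          calc ArithmeticFunction.vonMangoldt d * ‖c d‖ * ‖b (n / d)‖
              ≤ ArithmeticFunction.vonMangoldt d * m * A m (n / d) := by gcongr
            _ = _ := by ring
      exact le_of_mul_le_mul_right h3 hlog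
    · have : n = 1 := by omega
      subst this
      rw [hb1, A_one]
      simp

theorem A_summable (m : ℕ) {s : ℂ} (hs : 1 < s.re) :
    LSeriesSummable (fun n => ((A m n : ℝ) : ℂ)) s := by
  have h : ∀ m : ℕ, (∀ n, ((A m n : ℝ) : ℂ) =
      (((ArithmeticFunction.zeta : ArithmeticFunction ℕ) : ArithmeticFunction ℂ) ^ m) n) ∧
      LSeriesSummable (fun n =>
        (((ArithmeticFunction.zeta : ArithmeticFunction ℕ) : ArithmeticFunction ℂ) ^ m) n) s := by
    intro m
    induction m with
    | zero =>
      refine ⟨?_, ?_⟩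
      · intro n
        simp only [A, pow_zero, ArithmeticFunction.one_apply]
        split_ifs <;> simp
      · simp only [pow_zero]
        rw [ArithmeticFunction.one_eq_delta]
        have : LSeries.term LSeries.delta s = fun n => if n = 1 then 1 else 0 := by
          ext n; exact LSeries.term_delta s n
        unfold LSeriesSummable
        rw [this]
        exact (hasSum_ite_eq 1 (1 : ℂ)).summable
    | succ m ih =>
      refine ⟨?_, ?_⟩
      · intro n
        have e : A (m + 1) = A m * ((ArithmeticFunction.zeta : ArithmeticFunction ℕ) :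
            ArithmeticFunction ℝ) := by
          unfold A; rw [pow_succ]
        rw [e, pow_succ, ArithmeticFunction.mul_apply, ArithmeticFunction.mul_apply]
        push_cast
        refine Finset.sum_congr rfl fun p _ => ?_
        rw [ih.1]
        by_cases hp2 : p.2 = 0 <;> simp [hp2]
      · rw [pow_succ]
        refine ArithmeticFunction.LSeriesSummable_mul ih.2 ?_
        have := ArithmeticFunction.LSeriesSummable_zeta_iff.2 hs
        simpa using this
  have h1 := (h m).2
  have e : (fun n => ((A m n : ℝ) : ℂ)) = fun n =>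
      (((ArithmeticFunction.zeta : ArithmeticFunction ℕ) : ArithmeticFunction ℂ) ^ m) n :=
    funext (h m).1
  rw [e]
  exact h1

theorem compare {f g : ℕ → ℂ} {s : ℂ} (h : ∀ n, n ≠ 0 → ‖f n‖ ≤ ‖g n‖)
    (hg : LSeriesSummable g s) : LSeriesSummable f s := by
  unfold LSeriesSummable at hg ⊢
  refine Summable.of_norm_bounded hg.norm fun n => ?_
  rcases eq_or_ne n 0 with rfl | hn
  · simp
  · exact LSeries.norm_term_le s (h n hn)

theorem b_summable (m : ℕ) (b c : ℕ → ℂ) (hb1 : b 1 = 1) (hc : ∀ n, ‖c n‖ ≤ m)
    (hconv : Conv b c) {s : ℂ} (hs : 1 < s.re) : LSeriesSummable b s := by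
  refine compare (fun n hn => ?_) (A_summable m hs)
  rw [Complex.norm_real, Real.norm_eq_abs, abs_of_nonneg (A_nonneg m n)]
  exact bound m b c hb1 hc hconv n hn

theorem c_summable (m : ℕ) (c : ℕ → ℂ) (hc : ∀ n, ‖c n‖ ≤ m) {s : ℂ} (hs : 1 < s.re) :
    LSeriesSummable (fun n => ((ArithmeticFunction.vonMangoldt n : ℝ) : ℂ) * c n) s := by
  have h1 := (ArithmeticFunction.LSeriesSummable_vonMangoldt hs).smul (m : ℂ)
  refine compare (fun n hn => ?_) h1
  simp only [Pi.smul_apply, smul_eq_mul, norm_mul, Complex.norm_natCast]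
  rw [mul_comm (m : ℝ)]
  gcongr
  exact hc n

theorem coef : S_COEF := by
  intro m b c hb1 hc hconv s hs
  set g : ℂ → ℂ := LSeries (fun n => ((ArithmeticFunction.vonMangoldt n : ℝ) : ℂ) * c n) with hg
  set U : Set ℂ := {z | 1 < z.re} with hU
  have hbs : ∀ z : ℂ, 1 < z.re → LSeriesSummable b z := fun z hz =>
    b_summable m b c hb1 hc hconv hz
  have hab : LSeries.abscissaOfAbsConv b ≤ 1 := by
    refine LSeries.abscissaOfAbsConv_le_of_forall_lt_LSeriesSummable' (x := 1) fun y hy => ?_
    exact hbs y (by simpa using (by exact_mod_cast hy : (1 : ℝ) < y))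
  have hcs : ∀ z : ℂ, 1 < z.re →
      LSeriesSummable (fun n => ((ArithmeticFunction.vonMangoldt n : ℝ) : ℂ) * c n) z :=
    fun z hz => c_summable m c hc hz
  have hac : LSeries.abscissaOfAbsConv
      (fun n => ((ArithmeticFunction.vonMangoldt n : ℝ) : ℂ) * c n) ≤ 1 := by
    refine LSeries.abscissaOfAbsConv_le_of_forall_lt_LSeriesSummable' (x := 1) fun y hy => ?_
    exact hcs y (by simpa using (by exact_mod_cast hy : (1 : ℝ) < y))
  have hlt : ∀ z : ℂ, 1 < z.re → LSeries.abscissaOfAbsConv b < z.re := fun z hz =>
    lt_of_le_of_lt hab (by exact_mod_cast hz)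
  have hlt2 : ∀ z : ℂ, 1 < z.re → LSeries.abscissaOfAbsConv
      (fun n => ((ArithmeticFunction.vonMangoldt n : ℝ) : ℂ) * c n) < z.re := fun z hz =>
    lt_of_le_of_lt hac (by exact_mod_cast hz)
  -- the derivative
  have hder : ∀ z : ℂ, 1 < z.re → deriv (LSeries b) z = -(g z * LSeries b z) := by
    intro z hz
    rw [LSeries_deriv (hlt z hz), hg, ← LSeries_convolution' (hcs z hz) (hbs z hz)]
    congr 1
    apply LSeries_congr
    intro n hn
    rw [LSeries.convolution_def]
    simp only
    rw [Nat.sum_divisorsAntidiagonal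
      (fun i j => ((ArithmeticFunction.vonMangoldt i : ℝ) : ℂ) * c i * b j), ← hconv n hn]
    unfold LSeries.logMul
    rw [mul_comm, Complex.ofReal_log (Nat.cast_nonneg n), Complex.ofReal_natCast]
  have hfan : AnalyticOnNhd ℂ (LSeries b) U := fun z hz => LSeries_analyticOnNhd b z (hlt z hz)
  have hgan : AnalyticOnNhd ℂ g U := fun z hz => LSeries_analyticOnNhd _ z (hlt2 z hz)
  have hUo : IsOpen U := isOpen_lt continuous_const Complex.continuous_re
  have hUc : IsPreconnected U := (convex_halfSpace_re_gt 1).isPreconnected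
  have hne : LSeries b s ≠ 0 := by
    intro h0
    have h1 := (hfan s hs).analyticOrderAt_deriv_add_one
    have e1 : (fun z => LSeries b z - LSeries b s) = LSeries b := by
      ext z; rw [h0, sub_zero]
    rw [e1] at h1
    have e2 : deriv (LSeries b) =ᶠ[𝓝 s] fun z => (-g z) * LSeries b z := by
      filter_upwards [hUo.mem_nhds hs] with z hz
      rw [hder z hz]; ring
    rw [analyticOrderAt_congr e2] at h1
    have e3 : analyticOrderAt (fun z => (-g z) * LSeries b z) s =
        analyticOrderAt (fun z => -g z) s + analyticOrderAt (LSeries b) s :=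
      analyticOrderAt_mul (hgan s hs).neg (hfan s hs)
    rw [e3] at h1
    have htop : analyticOrderAt (LSeries b) s = ⊤ := by
      by_contra hnt
      obtain ⟨k, hk⟩ := ENat.ne_top_iff_exists.1 hnt
      rw [← hk] at h1
      have h2 : (k : ℕ∞) + 1 ≤ k := by
        calc (k : ℕ∞) + 1 ≤ analyticOrderAt (fun z => -g z) s + k + 1 := by
              gcongr
              exact le_add_self
          _ = k := h1
      have h3 : ((k + 1 : ℕ) : ℕ∞) ≤ (k : ℕ) := by exact_mod_cast h2
      have h4 : k + 1 ≤ k := by exact_mod_cast h3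
      omega
    have hev : LSeries b =ᶠ[𝓝 s] 0 := analyticOrderAt_eq_top.1 htop
    have hz := hfan.eqOn_zero_of_preconnected_of_eventuallyEq_zero hUc hs hev
    have hlim : Tendsto (fun x : ℝ => LSeries b x) atTop (𝓝 (b 1)) :=
      LSeries.tendsto_atTop (lt_of_le_of_lt hab (by exact_mod_cast EReal.coe_lt_top 1))
    have hlim0 : Tendsto (fun x : ℝ => LSeries b x) atTop (𝓝 0) := by
      refine tendsto_const_nhds.congr' ?_
      filter_upwards [eventually_gt_atTop (1 : ℝ)] with x hx
      have : ((x : ℝ) : ℂ) ∈ U := by simpa [hU] using hx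
      exact (hz this).symm
    have := tendsto_nhds_unique hlim hlim0
    rw [hb1] at this
    exact one_ne_zero this
  refine ⟨hbs s hs, hne, ?_⟩
  rw [logDeriv_apply, hder s hs]
  field_simp

end Pool.Agent.W672.UN
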